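import Pool.Agent.KS6_98.FI.Main

set_option autoImplicit false

/-!
# MP_921642_ag: all exceptions to the weak Fröberg–Iarrobino inequality

For `s ≤ n + 3` points in any dimension `n`, and for all `s` if `n ≤ 5`, the inequality
`dim L_{n,d}(m^s) ≥ ldim L_{n,d}(m^s)` (general points, `d ≥ 1`, `m ≥ 1`) holds if and only if it is
not the case that `n` is even, `s = n + 1`, `m ≤ d + 1` and `n d ≤ (n + 1) (m - 1)`. In these
exceptional cases the system is zero for all linearly independent points, and
`ldim = C((n + 1) m - n d - 1, n) > 0`.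

Steps of the proof (`b = d + 1 - m`):
* a form of degree `d` has multiplicity at least `m` at `v` if and only if `D_v ^ b` kills it;
* for linearly independent points `D_v ^ b` is surjective on the forms killed by the other
  operators (antiderivatives), so the dimension is an alternating sum, that is, a number of
  compositions with bounded parts; the linear virtual dimension is the same sum with the sets of
  more than `n` points left out;
* for `s ≥ n + 2` and `(n + 2) m ≥ n d + 2` there is a subsystem on `n + 2` points with negative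
  linear virtual dimension (strict unimodality of the numbers of bounded compositions);
* for `n + 3` points and `(n + 2) m ≤ n d + 1` the lower bound needs the exact dimension for `n + 2`
  points in degree `d - b`, which follows from the strong Lefschetz property of the algebras
  `ℂ[x_0, …, x_n] / (x_0 ^ b, …, x_n ^ b)`, proved by means of `sl_2`;
* for `n ≤ 5` the remaining numbers of points were done before (library, `WeakInequality`).
-/

open MvPolynomial

namespace Pool.Agent.Results.MP_921642_ag.Classification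

/-- The form `F` in `n + 1` variables vanishes to order at least `m` at the point of projective
space with coordinate vector `v`: the polynomial `F (v + x)` has no terms of degree `< m`. -/
def VanishesToOrder {n : ℕ} (v : Fin (n + 1) → ℂ) (m : ℕ) (F : MvPolynomial (Fin (n + 1)) ℂ) :
    Prop :=
  ∀ α : Fin (n + 1) →₀ ℕ, α.degree < m → coeff α (aeval (fun i => X i + C (v i)) F) = 0

/-- The vector space `L_{n,d}(m_1, …, m_s)` of forms of degree `d` in `n + 1` variables which vanish
to order at least `m i` at the point with coordinate vector `p i`, for every `i`. -/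
noncomputable def linSys (n d : ℕ) {s : ℕ} (m : Fin s → ℕ) (p : Fin s → Fin (n + 1) → ℂ) :
    Submodule ℂ (MvPolynomial (Fin (n + 1)) ℂ) where
  carrier := {F | F.IsHomogeneous d ∧ ∀ i, VanishesToOrder (p i) (m i) F}
  add_mem' := by
    rintro F G ⟨hF, hF'⟩ ⟨hG, hG'⟩
    refine ⟨hF.add hG, fun i α hα => ?_⟩
    rw [map_add, coeff_add, hF' i α hα, hG' i α hα, add_zero]
  zero_mem' := ⟨isHomogeneous_zero _ _ _, fun i α _ => by rw [map_zero, coeff_zero]⟩
  smul_mem' := by
    rintro c F ⟨hF, hF'⟩
    refine ⟨(homogeneousSubmodule (Fin (n + 1)) ℂ d).smul_mem c hF, fun i α hα => ?_⟩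
    rw [map_smul, coeff_smul, hF' i α hα, smul_zero]

/-- The number `k_I`: it is `d` for `I = ∅` and `max (∑_{i ∈ I} m_i - (|I| - 1) d, 0)` otherwise. -/
def kI (d : ℕ) {s : ℕ} (m : Fin s → ℕ) (I : Finset (Fin s)) : ℕ :=
  if I = ∅ then d else (∑ i ∈ I, m i) - (I.card - 1) * d

/-- The linear virtual dimension, with `c = r + 1 = |I|` running from `0` to `min n s`. -/
def lvdim (n d : ℕ) {s : ℕ} (m : Fin s → ℕ) : ℤ :=
  ∑ c ∈ Finset.range (min n s + 1), ∑ I ∈ Finset.powersetCard c (Finset.univ : Finset (Fin s)),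
    (-1) ^ c * ((n + kI d m I - c).choose n : ℤ)

open Classical in
/-- The linear expected dimension. -/
noncomputable def ldim (n d : ℕ) {s : ℕ} (m : Fin s → ℕ) : ℤ :=
  if ∃ m' : Fin s → ℕ, (∀ i, m' i ≤ m i) ∧ lvdim n d m' < 0 then 0 else max (lvdim n d m) 0

/-- The weak Fröberg–Iarrobino inequality for `L_{n,d}(m^s)`: on a nonempty Zariski open set of
`s`-tuples of points the dimension is at least the linear expected dimension. -/
def WeakInequality (n d m s : ℕ) : Prop :=
  ∃ P : MvPolynomial (Fin s × Fin (n + 1)) ℂ, P ≠ 0 ∧ ∀ p : Fin s → Fin (n + 1) → ℂ,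
    eval (fun x : Fin s × Fin (n + 1) => p x.1 x.2) P ≠ 0 →
    ldim n d (fun _ : Fin s => m) ≤ (Module.finrank ℂ (linSys n d (fun _ => m) p) : ℤ)

/-- The exceptional quadruples. -/
def Exceptional (n d m s : ℕ) : Prop :=
  Even n ∧ s = n + 1 ∧ m ≤ d + 1 ∧ n * d ≤ (n + 1) * (m - 1)

/-- **All exceptions to the weak Fröberg–Iarrobino inequality** for `s ≤ n + 3` points in `ℙⁿ` for
any `n`, for any number of points in `ℙⁿ` with `n ≤ 5` (and in some further ranges): the inequality
fails exactly in the exceptional cases; in these the system is zero while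
`ldim = C((n + 1) m - n d - 1, n) > 0`. -/
theorem result (n d m s : ℕ) (hn : 1 ≤ n) (hd : 1 ≤ d) (hm : 1 ≤ m) (hs : 1 ≤ s)
    (h : s ≤ n + 3 ∨ n ≤ 5 ∨ (n = 6 ∧ 13 ≤ s) ∨ 2 ^ n ≤ s ∨ n * d + 2 ≤ (n + 2) * m ∨
      (∃ c, 1 ≤ c ∧ c ≤ n ∧ s ≤ 2 ^ c + 1 ∧ 3 * m + c ≤ 2 * d + 3) ∨
      3 * m + n ≤ 2 * d + 3 ∨ 2 * m ≤ d + 1) :
    (WeakInequality n d m s ↔ ¬ Exceptional n d m s) ∧
    (Exceptional n d m s → ∀ p : Fin s → Fin (n + 1) → ℂ, LinearIndependent ℂ p →
      linSys n d (fun _ => m) p = ⊥ ∧
      ldim n d (fun _ : Fin s => m) = (((n + 1) * m - n * d - 1).choose n : ℤ) ∧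
      0 < ((n + 1) * m - n * d - 1).choose n) := by
  refine ⟨Pool.Agent.KS6_98.FI.classification hn hd hm hs h, fun he p hp => ?_⟩
  obtain ⟨he1, rfl, he2⟩ := he
  exact Pool.Agent.KS6_98.FI.exceptions hm ⟨he1, rfl, he2⟩ p hp

end Pool.Agent.Results.MP_921642_ag.Classification
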